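import Pool.Agent.Helper55.RT.Spec3

/-! THIN (helper55), part `TNS`: homomorphisms from `M` to `H¹(F, V)` are fixed classes in
`H¹(F, V ⊗ M^*)`. -/

set_option autoImplicit false
set_option linter.all false

open Polynomial IsDedekindDomain

namespace Pool.Agent.Helper23.Thin

open Pool.Agent.TH115.GD Pool.Agent.Helper55.RL Pool.Agent.Helper55.RT Matrix

section tensor

variable {p : ℕ} [Fact p.Prime] {Γ : Type} [Group Γ] {d m : ℕ}

/-- The index bijection. -/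
def ee (d m : ℕ) : Fin d × Fin m ≃ Fin (d * m) := finProdFinEquiv

lemma delta_aux {R : Type} [CommRing R] (x y : Fin (d * m)) :
    (1 : Matrix (Fin d) (Fin d) R) ((ee d m).symm x).1 ((ee d m).symm y).1 *
      (1 : Matrix (Fin m) (Fin m) R) ((ee d m).symm y).2 ((ee d m).symm x).2 =
      (1 : Matrix (Fin (d * m)) (Fin (d * m)) R) x y := by
  by_cases h : x = y
  · subst h
    rw [Matrix.one_apply_eq, Matrix.one_apply_eq, Matrix.one_apply_eq, mul_one]
  · rw [Matrix.one_apply_ne h]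
    have h1 : (ee d m).symm x ≠ (ee d m).symm y := fun h' => h ((ee d m).symm.injective h')
    by_cases h2 : ((ee d m).symm x).1 = ((ee d m).symm y).1
    · have h3 : ((ee d m).symm y).2 ≠ ((ee d m).symm x).2 := fun h3 => h1 (Prod.ext h2 h3.symm)
      rw [Matrix.one_apply_ne h3, mul_zero]
    · rw [Matrix.one_apply_ne h2, zero_mul]

/-- The matrices of `ρ ⊗ δ^*`. -/
noncomputable def tM (ρ : Γ →* GL (Fin d) ℤ_[p]) (δ : Γ →* GL (Fin m) ℤ_[p]) :
    Γ →* Matrix (Fin (d * m)) (Fin (d * m)) ℤ_[p] where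
  toFun σ := Matrix.of fun x y => (ρ σ).1 ((ee d m).symm x).1 ((ee d m).symm y).1 *
    (δ σ⁻¹).1 ((ee d m).symm y).2 ((ee d m).symm x).2
  map_one' := by
    ext x y
    rw [Matrix.of_apply, inv_one, map_one, map_one, Units.val_one, Units.val_one]
    exact delta_aux x y
  map_mul' σ τ := by
    ext x y
    rw [Matrix.of_apply, Matrix.mul_apply, map_mul, _root_.mul_inv_rev, map_mul, Units.val_mul,
      Units.val_mul, Matrix.mul_apply, Matrix.mul_apply, Finset.sum_mul_sum]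
    rw [← (ee d m).sum_comp, Fintype.sum_prod_type]
    refine Finset.sum_congr rfl fun a _ => Finset.sum_congr rfl fun b _ => ?_
    rw [Matrix.of_apply, Matrix.of_apply, Equiv.symm_apply_apply]
    ring

lemma tM_apply (ρ : Γ →* GL (Fin d) ℤ_[p]) (δ : Γ →* GL (Fin m) ℤ_[p]) (σ : Γ)
    (x y : Fin (d * m)) : tM ρ δ σ x y = (ρ σ).1 ((ee d m).symm x).1 ((ee d m).symm y).1 *
    (δ σ⁻¹).1 ((ee d m).symm y).2 ((ee d m).symm x).2 := rfl

/-- The representation `ρ ⊗ δ^*`. -/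
noncomputable def tR (ρ : Γ →* GL (Fin d) ℤ_[p]) (δ : Γ →* GL (Fin m) ℤ_[p]) :
    Γ →* GL (Fin (d * m)) ℤ_[p] := (tM ρ δ).toHomUnits

lemma tR_val (ρ : Γ →* GL (Fin d) ℤ_[p]) (δ : Γ →* GL (Fin m) ℤ_[p]) (σ : Γ) :
    (tR ρ δ σ).1 = tM ρ δ σ := rfl

/-- The columns of a vector. -/
def col (v : Fin (d * m) → ℚ_[p]) (j : Fin m) : Fin d → ℚ_[p] := fun a => v (ee d m (a, j))

lemma col_ext {v w : Fin (d * m) → ℚ_[p]} (h : ∀ j, col v j = col w j) : v = w := by
  funext x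
  have h1 := congrFun (h ((ee d m).symm x).2) ((ee d m).symm x).1
  have h2 : ee d m (((ee d m).symm x).1, ((ee d m).symm x).2) = x := (ee d m).apply_symm_apply x
  change v (ee d m _) = w (ee d m _) at h1
  rwa [h2] at h1

lemma col_add (v w : Fin (d * m) → ℚ_[p]) (j : Fin m) : col (v + w) j = col v j + col w j := rfl

lemma col_sub (v w : Fin (d * m) → ℚ_[p]) (j : Fin m) : col (v - w) j = col v j - col w j := rfl

/-- The vector with given columns. -/
def vec (f : Fin m → Fin d → ℚ_[p]) : Fin (d * m) → ℚ_[p] :=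
  fun x => f ((ee d m).symm x).2 ((ee d m).symm x).1

lemma col_vec (f : Fin m → Fin d → ℚ_[p]) (j : Fin m) : col (vec f) j = f j := by
  funext a
  change f ((ee d m).symm (ee d m (a, j))).2 ((ee d m).symm (ee d m (a, j))).1 = _
  rw [Equiv.symm_apply_apply]

lemma actQ_apply {n : ℕ} (ρ : Γ →* GL (Fin n) ℤ_[p]) (σ : Γ) (v : Fin n → ℚ_[p]) (a : Fin n) :
    actQ ρ σ v a = ∑ b, algebraMap ℤ_[p] ℚ_[p] ((ρ σ).1 a b) * v b := rfl

lemma actQ_add {n : ℕ} (ρ : Γ →* GL (Fin n) ℤ_[p]) (σ : Γ) (v w : Fin n → ℚ_[p]) :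
    actQ ρ σ (v + w) = actQ ρ σ v + actQ ρ σ w := Matrix.mulVec_add _ _ _

lemma actQ_sub {n : ℕ} (ρ : Γ →* GL (Fin n) ℤ_[p]) (σ : Γ) (v w : Fin n → ℚ_[p]) :
    actQ ρ σ (v - w) = actQ ρ σ v - actQ ρ σ w := Matrix.mulVec_sub _ _ _

lemma actQ_smul {n : ℕ} (ρ : Γ →* GL (Fin n) ℤ_[p]) (σ : Γ) (t : ℚ_[p]) (v : Fin n → ℚ_[p]) :
    actQ ρ σ (t • v) = t • actQ ρ σ v := Matrix.mulVec_smul _ _ _

lemma actQ_sum {n : ℕ} {ι : Type} (ρ : Γ →* GL (Fin n) ℤ_[p]) (σ : Γ) (s : Finset ι)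
    (f : ι → Fin n → ℚ_[p]) : actQ ρ σ (∑ i ∈ s, f i) = ∑ i ∈ s, actQ ρ σ (f i) := by
  classical
  induction s using Finset.induction_on with
  | empty => simp [actQ]
  | insert i s hi ih => rw [Finset.sum_insert hi, Finset.sum_insert hi, actQ_add, ih]

lemma actQ_mul {n : ℕ} (ρ : Γ →* GL (Fin n) ℤ_[p]) (σ τ : Γ) (v : Fin n → ℚ_[p]) :
    actQ ρ (σ * τ) v = actQ ρ σ (actQ ρ τ v) := by
  unfold actQ
  rw [map_mul, Units.val_mul, Matrix.map_mul, Matrix.mulVec_mulVec]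

lemma actQ_one {n : ℕ} (ρ : Γ →* GL (Fin n) ℤ_[p]) (v : Fin n → ℚ_[p]) :
    actQ ρ 1 v = v := by
  unfold actQ
  rw [map_one, Units.val_one, Matrix.map_one _ (map_zero _) (map_one _), Matrix.one_mulVec]

lemma col_act (ρ : Γ →* GL (Fin d) ℤ_[p]) (δ : Γ →* GL (Fin m) ℤ_[p]) (σ : Γ)
    (v : Fin (d * m) → ℚ_[p]) (j : Fin m) : col (actQ (tR ρ δ) σ v) j =
      ∑ l, algebraMap ℤ_[p] ℚ_[p] ((δ σ⁻¹).1 l j) • actQ ρ σ (col v l) := by
  funext a
  rw [Finset.sum_apply]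
  change actQ (tR ρ δ) σ v (ee d m (a, j)) = _
  rw [actQ_apply, ← (ee d m).sum_comp, Fintype.sum_prod_type, Finset.sum_comm]
  refine Finset.sum_congr rfl fun l _ => ?_
  rw [Pi.smul_apply, actQ_apply, smul_eq_mul, Finset.mul_sum]
  refine Finset.sum_congr rfl fun b _ => ?_
  rw [tR_val, tM_apply, Equiv.symm_apply_apply, Equiv.symm_apply_apply, map_mul]
  change _ = _ * (_ * v (ee d m (b, l)))
  ring

lemma col_act_one (ρ : Γ →* GL (Fin d) ℤ_[p]) (δ : Γ →* GL (Fin m) ℤ_[p]) {σ : Γ}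
    (h : δ σ = 1) (v : Fin (d * m) → ℚ_[p]) (j : Fin m) :
    col (actQ (tR ρ δ) σ v) j = actQ ρ σ (col v j) := by
  rw [col_act, map_inv, h, inv_one, Units.val_one, Finset.sum_eq_single j]
  · rw [Matrix.one_apply_eq, map_one, one_smul]
  · intro l _ hl
    rw [Matrix.one_apply_ne hl, map_zero, zero_smul]
  · intro h'
    exact absurd (Finset.mem_univ _) h'

lemma tR_one (ρ : Γ →* GL (Fin d) ℤ_[p]) (δ : Γ →* GL (Fin m) ℤ_[p]) {σ : Γ}
    (h : ρ σ = 1) (h' : δ σ = 1) : tR ρ δ σ = 1 := by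
  apply Units.ext
  rw [tR_val, Units.val_one]
  ext x y
  rw [tM_apply, map_inv, h, h', inv_one, Units.val_one, Units.val_one]
  exact delta_aux x y

end tensor

section modp

variable {p : ℕ} [Fact p.Prime]

/-- The matrix is `1` modulo `p`. -/
def One1 {n : ℕ} (A : Matrix (Fin n) (Fin n) ℤ_[p]) : Prop :=
  ∀ i j, (p : ℤ_[p]) ∣ (A - 1) i j

lemma one1_iff {n : ℕ} (A : Matrix (Fin n) (Fin n) ℤ_[p]) : One1 A ↔
    (Ideal.Quotient.mk (Ideal.span {(p : ℤ_[p])})).mapMatrix A = 1 := by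
  constructor
  · intro h
    have h1 : (Ideal.Quotient.mk (Ideal.span {(p : ℤ_[p])})).mapMatrix (A - 1) = 0 := by
      ext i j
      rw [RingHom.mapMatrix_apply, Matrix.map_apply, Matrix.zero_apply,
        Ideal.Quotient.eq_zero_iff_mem, Ideal.mem_span_singleton]
      exact h i j
    rwa [map_sub, map_one, sub_eq_zero] at h1
  · intro h i j
    have h1 : (Ideal.Quotient.mk (Ideal.span {(p : ℤ_[p])})).mapMatrix (A - 1) = 0 := by
      rw [map_sub, map_one, h, sub_self]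
    have h2 := congrFun (congrFun h1 i) j
    rw [RingHom.mapMatrix_apply, Matrix.map_apply, Matrix.zero_apply,
      Ideal.Quotient.eq_zero_iff_mem, Ideal.mem_span_singleton] at h2
    exact h2

lemma one1_pow {Γ : Type} [Group Γ] {n : ℕ} (ρ : Γ →* GL (Fin n) ℤ_[p]) {g : Γ}
    (h : One1 (ρ g).1) (k : ℕ) : One1 (ρ (g ^ k)).1 := by
  rw [one1_iff] at h ⊢
  rw [map_pow, Units.val_pow_eq_pow_val, map_pow, h, one_pow]

lemma one1_inv {Γ : Type} [Group Γ] {n : ℕ} (ρ : Γ →* GL (Fin n) ℤ_[p]) {g : Γ}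
    (h : One1 (ρ g).1) : One1 (ρ g⁻¹).1 := by
  rw [one1_iff] at h ⊢
  have h1 : (ρ g⁻¹).1 * (ρ g).1 = 1 := by
    rw [← Units.val_mul, ← map_mul, inv_mul_cancel, map_one, Units.val_one]
  have h2 := congrArg (Ideal.Quotient.mk (Ideal.span {(p : ℤ_[p])})).mapMatrix h1
  rwa [map_mul, h, mul_one, map_one] at h2

lemma one1_tM {Γ : Type} [Group Γ] {d m : ℕ} (ρ : Γ →* GL (Fin d) ℤ_[p])
    (δ : Γ →* GL (Fin m) ℤ_[p]) {g : Γ} (h : One1 (ρ g).1) (h' : One1 (δ g⁻¹).1) :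
    One1 (tR ρ δ g).1 := by
  have e1 : ∀ {n : ℕ} (A : Matrix (Fin n) (Fin n) ℤ_[p]), One1 A → ∀ i j,
      (Ideal.Quotient.mk (Ideal.span {(p : ℤ_[p])})) (A i j) =
      (1 : Matrix (Fin n) (Fin n) (ℤ_[p] ⧸ Ideal.span {(p : ℤ_[p])})) i j := by
    intro n A hA i j
    have := (one1_iff A).1 hA
    rw [← this]
    rfl
  rw [one1_iff]
  ext x y
  rw [RingHom.mapMatrix_apply, Matrix.map_apply, tR_val, tM_apply, map_mul, e1 _ h, e1 _ h']
  exact delta_aux x y

end modp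

section top

variable {p : ℕ} [Fact p.Prime] {Γ : Type} [Group Γ] [TopologicalSpace Γ] [IsTopologicalGroup Γ]
  {d m : ℕ}

lemma cont_tR (ρ : Γ →* GL (Fin d) ℤ_[p]) (δ : Γ →* GL (Fin m) ℤ_[p]) (hρ : Continuous ρ)
    (hδ : Continuous δ) : Continuous (tR ρ δ) := by
  have h1 : Continuous fun σ => (ρ σ).1 := Units.continuous_val.comp hρ
  have h2 : Continuous fun σ => (δ σ).1 := Units.continuous_val.comp hδ
  have h3 : Continuous fun σ => tM ρ δ σ := by
    refine continuous_matrix fun x y => ?_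
    simp only [tM_apply]
    exact ((continuous_apply_apply _ _).comp h1).mul
      ((continuous_apply_apply _ _).comp (h2.comp continuous_inv))
  rw [Units.continuous_iff]
  refine ⟨h3, ?_⟩
  have h4 : (fun σ => ((tR ρ δ σ)⁻¹ : GL (Fin (d * m)) ℤ_[p]).1) = fun σ => tM ρ δ σ⁻¹ := by
    funext σ
    rw [← map_inv, tR_val]
  change Continuous (fun σ => ((tR ρ δ σ)⁻¹ : GL (Fin (d * m)) ℤ_[p]).1)
  rw [h4]
  exact h3.comp continuous_inv

end top

section loc

variable {p : ℕ} [Fact p.Prime] {K F : Type} [Field K] [Field F] [Algebra K F]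

/-- Two embeddings of `Sep F` differ by an automorphism. -/
lemma exists_conj {E : Type} [Field E] [Algebra F E] (ι ι' : Sep F →ₐ[F] E) :
    ∃ g : Sep F ≃ₐ[F] Sep F, ∀ x, ι (g x) = ι' x := by
  letI : Algebra (Sep F) E := ι.toRingHom.toAlgebra
  haveI : IsScalarTower F (Sep F) E := IsScalarTower.of_algebraMap_eq fun r => (ι.commutes r).symm
  refine ⟨AlgHom.restrictNormal' ι' (Sep F), fun x => ?_⟩
  exact AlgHom.restrictNormal_commutes ι' (Sep F) x

lemma cob_any {k' : Type} [Field k'] [Algebra k'[X] F] [IsFractionRing k'[X] F] {d : ℕ}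
    {ρ : (Sep F ≃ₐ[K] Sep F) →* GL (Fin d) ℤ_[p]} {c : (Sep F ≃ₐ[F] Sep F) → Fin d → ℚ_[p]}
    (hc : ∀ σ τ, c (σ * τ) = c σ + actQ ρ (σ.restrictScalars K) (c τ))
    {v : HeightOneSpectrum k'[X]} (h : LocCobAt k' ρ c v)
    (ι : Sep F →ₐ[F] Sep (Comp k'[X] F v)) : ∃ y : Fin d → ℚ_[p],
      ∀ σ : Sep F ≃ₐ[F] Sep F, InLoc k' v ι σ → c σ = actQ ρ (σ.restrictScalars K) y - y := by
  obtain ⟨ι', y', h'⟩ := h
  obtain ⟨g, hg⟩ := exists_conj ι ι'
  have rmul : ∀ σ τ : Sep F ≃ₐ[F] Sep F, (σ * τ).restrictScalars K =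
      σ.restrictScalars K * τ.restrictScalars K := fun _ _ => rfl
  have c1 : c 1 = 0 := by
    have h1 := hc 1 1
    have h2 : ((1 : Sep F ≃ₐ[F] Sep F).restrictScalars K) = 1 := rfl
    rw [mul_one, h2, actQ_one] at h1
    simpa using h1
  refine ⟨actQ ρ (g.restrictScalars K) y' - c g, fun σ hσ => ?_⟩
  set σ₁ : Sep F ≃ₐ[F] Sep F := g⁻¹ * σ * g with hσ₁
  have hin : InLoc k' v ι' σ₁ := by
    obtain ⟨τ, hτ⟩ := hσ
    refine ⟨τ, fun x => ?_⟩
    rw [← hg, hτ, ← hg]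
    congr 1
    rw [hσ₁, ← AlgEquiv.mul_apply, ← AlgEquiv.mul_apply]
    congr 1
    group
  have e1 : σ = g * σ₁ * g⁻¹ := by rw [hσ₁]; group
  have e2 := h' σ₁ hin
  have e3 : c g⁻¹ = -actQ ρ ((g⁻¹ : Sep F ≃ₐ[F] Sep F).restrictScalars K) (c g) := by
    have h1 := hc g⁻¹ g
    rw [inv_mul_cancel, c1] at h1
    exact eq_neg_of_add_eq_zero_left h1.symm
  have neg : ∀ (τ : Sep F ≃ₐ[K] Sep F) (w : Fin d → ℚ_[p]), actQ ρ τ (-w) = -actQ ρ τ w :=
    fun τ w => Matrix.mulVec_neg _ _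
  have e4 : c σ = c g + (actQ ρ (g.restrictScalars K) (c σ₁) +
      actQ ρ (g.restrictScalars K) (actQ ρ (σ₁.restrictScalars K) (c g⁻¹))) := by
    conv_lhs => rw [e1]
    rw [mul_assoc, hc g, hc σ₁, actQ_add]
  rw [e4, e2, e3, neg, neg, actQ_sub, ← actQ_mul, ← actQ_mul, ← actQ_mul, actQ_sub, ← actQ_mul]
  have e5 : σ.restrictScalars K * g.restrictScalars K =
      g.restrictScalars K * σ₁.restrictScalars K := by
    rw [← rmul, ← rmul]
    congr 1
    rw [hσ₁]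
    group
  have e6 : g.restrictScalars K * σ₁.restrictScalars K *
      (g⁻¹ : Sep F ≃ₐ[F] Sep F).restrictScalars K = σ.restrictScalars K := by
    rw [← rmul, ← rmul]
    congr 1
    rw [hσ₁]
    group
  rw [e5, e6]
  abel

end loc

open scoped Classical in
theorem main : Q_TNS := by
  intro p _ k k' K F _ _ _ _ _ _ _ _ L P D hV d m ρ hρ hpro hun hno δ hδ hproδ hδF c hc hloc j₀
  have hδF' : ∀ σ : Sep F ≃ₐ[F] Sep F, δ (σ.restrictScalars K) = 1 := hδF
  let C : (Sep F ≃ₐ[F] Sep F) → Fin (d * m) → ℚ_[p] := fun σ => vec fun j => c j σ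
  have colC : ∀ σ j, col (C σ) j = c j σ := fun σ j => col_vec _ j
  have hcob := hV (d * m) (tR ρ δ) (cont_tR ρ δ hρ hδ) ?_ ?_ ?_ C ?_ ?_
  · obtain ⟨Y, hY⟩ := hcob
    refine ⟨col Y j₀, fun σ => ?_⟩
    have h1 := congrArg (fun v => col v j₀) (hY σ)
    simp only [col_sub] at h1
    rw [colC, col_act_one ρ δ (hδF' σ)] at h1
    exact h1
  · -- pro-p
    intro σ hσ
    obtain ⟨a, ha⟩ := hpro σ hσ
    obtain ⟨b, hb⟩ := hproδ σ hσ
    refine ⟨a + b, ?_⟩
    have h1 : One1 (ρ (σ ^ p ^ (a + b))).1 := by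
      rw [pow_add, pow_mul]
      exact one1_pow ρ ha _
    have h2 : One1 (δ (σ ^ p ^ (a + b))).1 := by
      rw [add_comm, pow_add, pow_mul]
      exact one1_pow δ hb _
    exact one1_tM ρ δ h1 (one1_inv δ h2)
  · intro v hv ι σ hσ
    exact tR_one ρ δ (hun v hv ι σ hσ) (hδF' σ)
  · intro θ hθ ι y hy
    refine col_ext fun j => ?_
    have h1 : col y j = 0 := by
      refine hno θ hθ ι (col y j) fun σ hσ => ?_
      have h2 : col (actQ (tR ρ δ) (σ.restrictScalars K) y) j = col y j := by rw [hy σ hσ]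
      rwa [col_act_one ρ δ (hδF' σ)] at h2
    rw [h1]
    rfl
  · refine ⟨?_, ?_, ?_⟩
    · refine continuous_pi fun x => ?_
      exact (continuous_apply _).comp (hc.cont _)
    · intro σ τ
      refine col_ext fun j => ?_
      rw [colC, col_add, colC, col_act_one ρ δ (hδF' σ), colC]
      exact hc.mul j σ τ
    · intro τ
      choose y hy using fun j => hc.equiv τ j
      refine ⟨vec fun j => ∑ l, algebraMap ℤ_[p] ℚ_[p] ((δ τ⁻¹).1 l j) • y l,
        fun σ σ' hσ => ?_⟩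
      refine col_ext fun j => ?_
      rw [col_sub, col_sub, colC, col_act_one ρ δ (hδF' σ), col_vec, col_act]
      simp only [colC]
      have h1 : ∀ l, actQ ρ τ (c l σ') = ∑ i, algebraMap ℤ_[p] ℚ_[p] ((δ τ).1 i l) • c i σ +
          (actQ ρ (σ.restrictScalars K) (y l) - y l) := by
        intro l
        rw [← hy l σ σ' hσ]
        abel
      have h2 : ∑ l, algebraMap ℤ_[p] ℚ_[p] ((δ τ⁻¹).1 l j) • actQ ρ τ (c l σ') =
          c j σ + ∑ l, algebraMap ℤ_[p] ℚ_[p] ((δ τ⁻¹).1 l j) •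
            (actQ ρ (σ.restrictScalars K) (y l) - y l) := by
        have h3 : ∑ l, algebraMap ℤ_[p] ℚ_[p] ((δ τ⁻¹).1 l j) •
            ∑ i, algebraMap ℤ_[p] ℚ_[p] ((δ τ).1 i l) • c i σ = c j σ := by
          have h4 : ∀ l, algebraMap ℤ_[p] ℚ_[p] ((δ τ⁻¹).1 l j) •
              ∑ i, algebraMap ℤ_[p] ℚ_[p] ((δ τ).1 i l) • c i σ =
              ∑ i, (algebraMap ℤ_[p] ℚ_[p] ((δ τ).1 i l * (δ τ⁻¹).1 l j)) • c i σ := by
            intro l
            rw [Finset.smul_sum]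
            refine Finset.sum_congr rfl fun i _ => ?_
            rw [smul_smul, map_mul, mul_comm]
          rw [Finset.sum_congr rfl fun l _ => h4 l, Finset.sum_comm]
          have h5 : ∀ i, ∑ l, (algebraMap ℤ_[p] ℚ_[p] ((δ τ).1 i l * (δ τ⁻¹).1 l j)) • c i σ =
              (algebraMap ℤ_[p] ℚ_[p] ((1 : Matrix (Fin m) (Fin m) ℤ_[p]) i j)) • c i σ := by
            intro i
            rw [← Finset.sum_smul, ← map_sum, ← Matrix.mul_apply, ← Units.val_mul, ← map_mul,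
              mul_inv_cancel, map_one, Units.val_one]
          rw [Finset.sum_congr rfl fun i _ => h5 i, Finset.sum_eq_single j]
          · rw [Matrix.one_apply_eq, map_one, one_smul]
          · intro i _ hi
            rw [Matrix.one_apply_ne hi, map_zero, zero_smul]
          · intro h
            exact absurd (Finset.mem_univ _) h
        rw [Finset.sum_congr rfl fun l _ => by rw [h1 l], ]
        simp only [smul_add, Finset.sum_add_distrib]
        rw [h3]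
      rw [h2, actQ_sum]
      simp only [actQ_smul, smul_sub, Finset.sum_sub_distrib]
      abel
  · have key : ∀ v : HeightOneSpectrum k'[X], (∀ j, LocCobAt k' ρ (c j) v) →
        LocCobAt k' (tR ρ δ) C v := by
      intro v hv
      obtain ⟨ι, _, _⟩ := hv j₀
      choose y hy using fun j => cob_any (hc.mul j) (hv j) ι
      refine ⟨ι, vec y, fun σ hσ => col_ext fun j => ?_⟩
      rw [colC, col_sub, col_act_one ρ δ (hδF' σ), col_vec]
      exact hy j σ hσ
    exact ⟨fun v hv => key v fun j => (hloc j).1 v hv, fun θ hθ => key _ fun j => (hloc j).2 θ hθ⟩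

end Pool.Agent.Helper23.Thin
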