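import Pool.Agent.Helper55.RT.Spec5
import Pool.Agent.Helper23.Thin.TNS
import Pool.Agent.Helper55.RL.Root
import Pool.Graph.R_seed8.TH115.GD.Ext

/-! THIN-3 (helper55), second half of the part `PPR`: the case of an exact equality. -/

set_option autoImplicit false
set_option linter.all false

open Polynomial IsDedekindDomain
open scoped Classical

namespace Pool.Agent.Helper23.Thin.PPRB

open Pool.Agent.TH115.GD Pool.Agent.Helper55.RT
open Pool.Agent.Helper55.RG hiding em_inj VanishL VanishExt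
open Pool.Agent.Helper55.RL
open Pool.Agent.Helper23.Thin

section red

variable {p : ℕ} [Fact p.Prime] {d m : ℕ}

/-- Integral vectors. -/
def Itg (v : Fin d → ℚ_[p]) : Prop := ∀ a, ‖v a‖ ≤ 1

lemma Itg.add {v w : Fin d → ℚ_[p]} (hv : Itg v) (hw : Itg w) : Itg (v + w) := fun a =>
  (IsUltrametricDist.norm_add_le_max _ _).trans (max_le (hv a) (hw a))

lemma Itg.sub {v w : Fin d → ℚ_[p]} (hv : Itg v) (hw : Itg w) : Itg (v - w) := fun a => by
  rw [Pi.sub_apply, sub_eq_add_neg]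
  refine (IsUltrametricDist.norm_add_le_max _ _).trans (max_le (hv a) ?_)
  rw [norm_neg]
  exact hw a

lemma Itg.zero : Itg (0 : Fin d → ℚ_[p]) := fun a => by
  rw [Pi.zero_apply, norm_zero]; exact zero_le_one

/-- The reduction modulo `p` of a vector. -/
noncomputable def red (v : Fin d → ℚ_[p]) : Fin d → ZMod p :=
  fun a => if h : ‖v a‖ ≤ 1 then PadicInt.toZMod (⟨v a, h⟩ : ℤ_[p]) else 0

lemma red_apply {v : Fin d → ℚ_[p]} (hv : Itg v) (a : Fin d) :
    red v a = PadicInt.toZMod (⟨v a, hv a⟩ : ℤ_[p]) := dif_pos (hv a)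

lemma red_add {v w : Fin d → ℚ_[p]} (hv : Itg v) (hw : Itg w) :
    red (v + w) = red v + red w := by
  funext a
  rw [Pi.add_apply, red_apply (hv.add hw), red_apply hv, red_apply hw, ← map_add]
  congr 1

lemma red_sub {v w : Fin d → ℚ_[p]} (hv : Itg v) (hw : Itg w) :
    red (v - w) = red v - red w := by
  funext a
  rw [Pi.sub_apply, red_apply (hv.sub hw), red_apply hv, red_apply hw, ← map_sub]
  congr 1

lemma red_zero : red (0 : Fin d → ℚ_[p]) = 0 := by
  funext a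
  rw [red_apply Itg.zero]
  exact map_zero PadicInt.toZMod

variable {Γ : Type} [Group Γ]

lemma actQ_coe (ρ : Γ →* GL (Fin d) ℤ_[p]) (σ : Γ) (w : Fin d → ℤ_[p]) :
    actQ ρ σ (fun a => (w a : ℚ_[p])) = fun a => (((ρ σ).1.mulVec w a : ℤ_[p]) : ℚ_[p]) := by
  funext a
  rw [actQ_apply]
  change _ = algebraMap ℤ_[p] ℚ_[p] _
  rw [Matrix.mulVec, dotProduct, map_sum]
  refine Finset.sum_congr rfl fun b _ => ?_
  rw [map_mul]
  rfl

lemma Itg.act (ρ : Γ →* GL (Fin d) ℤ_[p]) (σ : Γ) {v : Fin d → ℚ_[p]} (hv : Itg v) :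
    Itg (actQ ρ σ v) := by
  intro a
  have h1 := actQ_coe ρ σ fun a => (⟨v a, hv a⟩ : ℤ_[p])
  have h2 : actQ ρ σ v a = (((ρ σ).1.mulVec (fun a => (⟨v a, hv a⟩ : ℤ_[p])) a : ℤ_[p]) : ℚ_[p]) :=
    congrFun h1 a
  rw [h2]
  exact PadicInt.norm_le_one _

/-- The reduction modulo `p` of a representation. -/
noncomputable def rb (ρ : Γ →* GL (Fin d) ℤ_[p]) : Γ →* GL (Fin d) (ZMod p) :=
  (Matrix.GeneralLinearGroup.map (PadicInt.toZMod : ℤ_[p] →+* ZMod p)).comp ρ

lemma rb_apply (ρ : Γ →* GL (Fin d) ℤ_[p]) (σ : Γ) (i j : Fin d) :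
    (rb ρ σ).1 i j = PadicInt.toZMod ((ρ σ).1 i j) := rfl

lemma red_act (ρ : Γ →* GL (Fin d) ℤ_[p]) (σ : Γ) {v : Fin d → ℚ_[p]} (hv : Itg v) :
    red (actQ ρ σ v) = (rb ρ σ).1.mulVec (red v) := by
  funext a
  rw [red_apply (hv.act ρ σ)]
  have h1 := actQ_coe ρ σ fun a => (⟨v a, hv a⟩ : ℤ_[p])
  have h2 : (⟨actQ ρ σ v a, hv.act ρ σ a⟩ : ℤ_[p]) =
      (ρ σ).1.mulVec (fun a => (⟨v a, hv a⟩ : ℤ_[p])) a := Subtype.ext (congrFun h1 a)
  rw [h2, Matrix.mulVec, Matrix.mulVec, dotProduct, dotProduct, map_sum]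
  refine Finset.sum_congr rfl fun b _ => ?_
  rw [map_mul, rb_apply, red_apply hv]

lemma dvd_iff (x : ℤ_[p]) : (p : ℤ_[p]) ∣ x ↔ (PadicInt.toZMod x : ZMod p) = 0 := by
  rw [← RingHom.mem_ker, PadicInt.ker_toZMod, PadicInt.maximalIdeal_eq_span_p,
    Ideal.mem_span_singleton]

lemma rb_one (ρ : Γ →* GL (Fin d) ℤ_[p]) (τ : Γ) (h : ∀ i j, (p : ℤ_[p]) ∣ ((ρ τ).1 - 1) i j) :
    rb ρ τ = 1 := by
  rw [Units.ext_iff, ← Matrix.ext_iff]
  intro i j
  have h0 := h i j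
  rw [dvd_iff, Matrix.sub_apply, map_sub, sub_eq_zero] at h0
  rw [rb_apply, h0]
  rw [Units.val_one, Matrix.one_apply, Matrix.one_apply]
  split_ifs <;> simp

lemma red_eq_zero {v : Fin d → ℚ_[p]} (hv : Itg v) (h : red v = 0) :
    Itg ((p : ℚ_[p])⁻¹ • v) := by
  intro a
  have h1 : (PadicInt.toZMod (⟨v a, hv a⟩ : ℤ_[p]) : ZMod p) = 0 := by
    rw [← red_apply hv, h]; rfl
  rw [← dvd_iff] at h1
  obtain ⟨z, hz⟩ := h1
  have hp0 : (p : ℚ_[p]) ≠ 0 := by exact_mod_cast (Fact.out : p.Prime).ne_zero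
  have h2 : v a = (p : ℚ_[p]) * (z : ℚ_[p]) := by
    have := congrArg (fun x : ℤ_[p] => (x : ℚ_[p])) hz
    simpa using this
  rw [Pi.smul_apply, smul_eq_mul, h2, inv_mul_cancel_left₀ hp0]
  exact PadicInt.norm_le_one z

lemma cont_red {X : Type} [TopologicalSpace X] {f : X → Fin d → ℚ_[p]} (hf : Continuous f)
    (h : ∀ x, Itg (f x)) : Continuous fun x => red (f x) := by
  refine continuous_pi fun a => ?_
  have h1 : (fun x => red (f x) a) = fun x => (PadicInt.toZMod (⟨f x a, h x a⟩ : ℤ_[p]) : ZMod p) := by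
    funext x
    exact red_apply (h x) a
  rw [h1]
  have h2 : Continuous fun x => (⟨f x a, h x a⟩ : ℤ_[p]) :=
    Continuous.subtype_mk ((continuous_apply a).comp hf) _
  have h3 : Continuous fun z : ℤ_[p] => (PadicInt.toZMod z : ZMod p) := by
    refine IsLocallyConstant.continuous ?_
    rw [IsLocallyConstant.iff_eventually_eq]
    intro x
    filter_upwards [Metric.ball_mem_nhds x one_pos] with y hy
    rw [← sub_eq_zero, ← map_sub, ← dvd_iff, ← PadicInt.norm_lt_one_iff_dvd, ← dist_eq_norm]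
    exact hy
  exact h3.comp h2

end red

section comb

variable {p : ℕ} [Fact p.Prime] {d m : ℕ} {G : Type}

/-- The linear combinations of the `c_j`. -/
noncomputable def comb (c : Fin m → G → Fin d → ℚ_[p]) (x : Fin m → ℚ_[p]) (σ : G) : Fin d → ℚ_[p] :=
  ∑ j, x j • c j σ

lemma comb_add (c : Fin m → G → Fin d → ℚ_[p]) (x y : Fin m → ℚ_[p]) (σ : G) :
    comb c (x + y) σ = comb c x σ + comb c y σ := by
  simp only [comb, Pi.add_apply, add_smul, Finset.sum_add_distrib]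

lemma comb_sub (c : Fin m → G → Fin d → ℚ_[p]) (x y : Fin m → ℚ_[p]) (σ : G) :
    comb c (x - y) σ = comb c x σ - comb c y σ := by
  simp only [comb, Pi.sub_apply, sub_smul, Finset.sum_sub_distrib]

lemma comb_smul (c : Fin m → G → Fin d → ℚ_[p]) (t : ℚ_[p]) (x : Fin m → ℚ_[p]) (σ : G) :
    comb c (t • x) σ = t • comb c x σ := by
  simp only [comb, Pi.smul_apply, smul_assoc, Finset.smul_sum]

lemma comb_zero (c : Fin m → G → Fin d → ℚ_[p]) (σ : G) : comb c 0 σ = 0 := by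
  simp only [comb, Pi.zero_apply, zero_smul, Finset.sum_const_zero]

lemma cont_comb [TopologicalSpace G] {c : Fin m → G → Fin d → ℚ_[p]} (hc : ∀ j, Continuous (c j))
    (x : Fin m → ℚ_[p]) : Continuous (comb c x) := by
  change Continuous fun σ => ∑ j, (x j • c j) σ
  exact continuous_finset_sum _ fun j _ => (hc j).const_smul (x j)

variable {Γ : Type} [Group Γ]

lemma comb_act (ρ : Γ →* GL (Fin d) ℤ_[p]) (δ : Γ →* GL (Fin m) ℤ_[p])
    (c : Fin m → G → Fin d → ℚ_[p]) (τ : Γ) (σ σ' : G)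
    (h : ∀ j, actQ ρ τ (c j σ') = ∑ i, algebraMap ℤ_[p] ℚ_[p] ((δ τ).1 i j) • c i σ)
    (x : Fin m → ℚ_[p]) : comb c (actQ δ τ x) σ = actQ ρ τ (comb c x σ') := by
  unfold comb
  rw [actQ_sum]
  simp only [actQ_smul, h, actQ_apply, Finset.sum_smul, Finset.smul_sum]
  rw [Finset.sum_comm]
  refine Finset.sum_congr rfl fun i _ => Finset.sum_congr rfl fun j _ => ?_
  rw [smul_smul, mul_comm]

end comb

end Pool.Agent.Helper23.Thin.PPRB
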